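import Pool.Agent.H34.TAM.Stmts2

/-! Row MAT of the board `aut` (Jacobi matrices of an automorphism of the free algebra). -/

set_option autoImplicit false

open scoped TensorProduct

namespace Pool.AUT

open Pool.CGR Pool.CGS Pool.TAM MulOpposite

namespace H49

theorem ph_ph {m : ℕ} (φ ψ : Fr m →ₐ[ℂ] Fr m) (h : ∀ a, φ (ψ a) = a) (z : Te m) :
    ph φ (ph ψ z) = z := by
  induction z using TensorProduct.induction_on with
  | zero => simp
  | tmul a b =>
    have e1 : ph ψ (a ⊗ₜ[ℂ] b) = (ψ a) ⊗ₜ[ℂ] (op (ψ (unop b)) : (Fr m)ᵐᵒᵖ) := rfl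
    have e2 : ph φ ((ψ a) ⊗ₜ[ℂ] (op (ψ (unop b)) : (Fr m)ᵐᵒᵖ)) =
        (φ (ψ a)) ⊗ₜ[ℂ] (op (φ (ψ (unop b))) : (Fr m)ᵐᵒᵖ) := rfl
    rw [e1, e2, h, h, op_unop]
  | add a b ha hb => rw [map_add, map_add, ha, hb]

end H49

theorem mat_thm (h1 : CHNStmt) (h2 : COMStmt) : MATStmt := by
  intro m D hD φ ψ hφψ hψφ
  refine ⟨?_, ?_, ?_⟩
  · ext k k'
    rw [Matrix.mul_apply]
    simp only [Matrix.of_apply]
    have h := h1 m D hD φ (ψ (io k)) k'
    rw [hφψ, hD.gen] at h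
    rw [← h, Matrix.one_apply]
  · ext j j'
    rw [Matrix.mul_apply]
    simp only [Matrix.of_apply]
    have h := h1 m D hD ψ (φ (io j)) j'
    rw [hψφ, hD.gen] at h
    have h' := congrArg (ph φ) h
    rw [map_sum] at h'
    simp only [map_mul, H49.ph_ph φ ψ hφψ] at h'
    rw [← h', Matrix.one_apply]
    split_ifs
    · exact map_one _
    · exact map_zero _
  · intro δ hδ P hP
    ext j k
    rw [Matrix.mul_apply, Matrix.add_apply, Matrix.mul_apply]
    simp only [Matrix.of_apply]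
    rw [← h1 m D hD φ (P j) k, hP j]
    exact h2 m D hD δ hδ (φ (io j)) k

end Pool.AUT
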